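import Pool.Agent.MWGX.StmtsB

/-!
# `β` keeps `KB` and `KC` (row VCG of squad MWGX)

Problem MP_23468a_al.
-/

set_option autoImplicit false

namespace Pool.Agent.MWGX.H47

open Pool.Agent.Helper14_MV Pool.Agent.Helper2_MV
open Pool.Agent.MWK (pre)
open Pool.Agent.MWF (gaml)
open Pool.Agent.MWGN (nn Nm WC WT Tau Ns nl sg)
open Pool.Agent.MWGQ (pw Gn E0 A0 P0 bd kr krl Rs)
open Pool.Agent.MWGR (X It Kaba F1 Dm Ec Es Ea Al0 Rh FE)
open Pool.Agent.MWGX

theorem e0_a0 {n : ℕ} {β : FIC} (h : E0 n β) : A0 n β := by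
  have h1 := RR.append h (RR.refl (β := β) [2, 1])
  unfold A0
  simpa [List.append_assoc] using h1

theorem ns1 (m : ℕ) : Ns N1 m := by
  unfold Ns N1
  simp only
  rw [List.nodup_cons, List.nodup_cons]
  refine ⟨?_, ?_, ?_⟩
  · simp only [List.mem_cons, List.mem_map, List.mem_range, not_or, not_exists, not_and]
    refine ⟨by omega, fun i _ h => by omega⟩
  · simp only [List.mem_map, List.mem_range, not_exists, not_and]
    intro i _ h
    omega
  · exact List.Nodup.map (fun a b h => by simpa using h) List.nodup_range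

theorem ns2 (m k : ℕ) : Ns (N2 m) k := by
  unfold Ns N2 N1
  simp only
  rw [List.nodup_cons, List.nodup_cons]
  refine ⟨?_, ?_, ?_⟩
  · simp only [List.mem_cons, List.mem_map, List.mem_range, not_or, not_exists, not_and]
    refine ⟨by omega, fun i _ h => by omega⟩
  · simp only [List.mem_map, List.mem_range, not_exists, not_and]
    intro i _ h
    omega
  · exact List.Nodup.map (fun a b h => by simpa using h) List.nodup_range

theorem nl1 (m : ℕ) : 5 ∉ nl N1 m := by
  unfold nl N1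
  simp only [List.mem_cons, List.mem_append, List.mem_map, List.mem_range, not_or, not_exists,
    not_and]
  refine ⟨by omega, by omega, by omega, by omega, fun i _ h => by omega, fun i _ h => by omega,
    fun i _ h => by omega⟩

theorem nl2 (m k : ℕ) : 6 ∉ nl (N2 m) k := by
  unfold nl N2 N1
  simp only [List.mem_cons, List.mem_append, List.mem_map, List.mem_range, not_or, not_exists,
    not_and]
  refine ⟨by omega, by omega, by omega, by omega, fun i _ h => by omega, fun i _ h => by omega,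
    fun i _ h => by omega⟩

/-- the gap condition is kept -/
theorem ge_keep {ν : Nm} {e : ℕ} {w w' : List ℕ} (h : OX w w') (ha : w.count ν.a = 1)
    (he : e ≠ ν.a) (g : GE ν e w) : GE ν e w' where
  e2 := (h.c2 e).1 g.e2
  ea := (h.nc ν.a ha e he).1 g.ea

/-- the label condition is kept -/
theorem lg_keep (h2 : LbwStmt) {n : ℕ} {β : FIC} {δ : ℕ} (hG : Gn n β) (hE : ¬ E0 n β)
    (hI : It n (RR β)) (hD : Dl n β δ) {ν : Nm} {e m nc : ℕ} {w w' : List ℕ} (hr : RR β w w')
    (c : WC ν m nc w) (g : GE ν e w) (l : LG ν e δ w) : LG ν e δ w' := by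
  have hy := h2 n β δ hG hE hI hD w w' hr e ν.y ν.a c.sa c.y2 c.ya g.e2 g.ea
  have hx := h2 n β δ hG hE hI hD w w' hr e ν.x ν.a c.sa c.x2 c.xa g.e2 g.ea
  unfold LG at l ⊢
  exact hy.symm.trans (l.trans (hx.add_right 1))

theorem vcg (h1 : OxvStmt) (h2 : LbwStmt) (h3 : MWGQ.WcvStmt) (h4 : SpgStmt) (h5 : KegStmt) :
    VcgStmt := by
  intro n β δ hG hI hD hEs τ m hτ hK w w' hr
  have hA : ¬ A0 n β := fun h => hK (h5 n β hG hEs (Or.inl h) m τ hτ)
  have hP : ¬ P0 n β := fun h => hK (h5 n β hG hEs (Or.inr h) m τ hτ)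
  have hE : ¬ E0 n β := fun h => hA (e0_a0 h)
  have hox := (h1 n β hG hE w w' hr).1
  have hW1 := h3 n β hG hE hP hA N1 τ m m (ns1 m) (by omega) w w' hr
  have hW2 := h3 n β hG hE hP hA (N2 m) τ (m + 1) (m + 2) (ns2 m (m + 1)) (by omega) w w' hr
  have hW3 := h3 n β hG hE hP hA (N2 m) τ m m (ns2 m m) (by omega) w w' hr
  have hK0 : K0 n δ τ m w → K0 n δ τ m w' := by
    intro k
    exact {
      c1 := hW1.1 k.c1
      t1 := hW1.2.1 k.t1
      g1 := ge_keep hox k.c1.sa (by simp [N1]) k.g1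
      l1 := lg_keep h2 hG hE hI hD hr k.c1 k.g1 k.l1
      r1 := hW1.2.2 k.r1
      c2 := hW2.1 k.c2
      t2 := hW3.2.1 k.t2
      g2 := ge_keep hox k.c2.sa (by simp only [N2, N1]; omega) k.g2
      l2 := lg_keep h2 hG hE hI hD hr k.c2 k.g2 k.l2
      r2 := hW2.2.2 k.r2 }
  refine ⟨fun k => ⟨hK0 k.1, ?_⟩, fun k => ⟨hK0 k.1, ?_⟩⟩
  · exact h4 n β δ hG hI hD hE hP hA N1 5 τ m m (ns1 m) hτ le_rfl (by omega) (nl1 m) hK w w' hr
      k.1.c1 k.1.t1 k.1.r1 k.1.g1 k.1.l1 k.2
  · exact h4 n β δ hG hI hD hE hP hA (N2 m) 6 τ m (m + 1) (ns2 m m) hτ (by omega) (by omega)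
      (nl2 m m) hK w w' hr (wc_mono k.1.c2 (by omega) (by omega)) k.1.t2
      (rs_mono k.1.r2 (by omega) (by omega)) k.1.g2 k.1.l2 k.2

end Pool.Agent.MWGX.H47
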